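import Pool.Agent.Run7.h77.RO.Defs

/-!
Project RO, piece DR1: degrees in class `r 1`.
-/

set_option autoImplicit false

namespace Run7.h459.RO

open Run7.h77.RO

theorem Hn_comm {w : ℕ} (H : SimpleGraph (Fin w)) (x y : ℕ) : Hn H x y ↔ Hn H y x :=
  ⟨fun ⟨hx, hy, h⟩ => ⟨hy, hx, h.symm⟩, fun ⟨hx, hy, h⟩ => ⟨hy, hx, h.symm⟩⟩

open Classical in
theorem cnt_zero {p B w v : ℕ} {H : SimpleGraph (Fin w)} {k k' : Kd p} {x : ℕ}
    (h : ∀ y, ¬ A2 B w v H k x k' y) : cnt B w v H k x k' = 0 := by
  unfold cnt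
  rw [Finset.card_eq_zero, Finset.filter_eq_empty_iff]
  intro y _
  exact h y

open Classical in
theorem cnt_card {p B w v : ℕ} {H : SimpleGraph (Fin w)} {k k' : Kd p} {x : ℕ} (S : Finset ℕ)
    (h : ∀ y, (y < sz B w v k' ∧ A2 B w v H k x k' y) ↔ y ∈ S) :
    cnt B w v H k x k' = S.card := by
  unfold cnt
  congr 1
  ext y
  rw [Finset.mem_filter, Finset.mem_range, h]

theorem cnt_add (hHN : S_HN) {p B w v D : ℕ} {H : SimpleGraph (Fin w)}
    (hreg : ∀ c, (H.neighborSet c).ncard = D) {k k' : Kd p} {x : ℕ} (c q : ℕ) (S : Finset ℕ)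
    (hc : c < w) (hq : (q + 1) * w ≤ sz B w v k')
    (h : ∀ y, (y < sz B w v k' ∧ A2 B w v H k x k' y) ↔
      ((y < sz B w v k' ∧ q = y / w ∧ Hn H c (y % w)) ∨ y ∈ S))
    (hS : ∀ y ∈ S, q ≠ y / w) : cnt B w v H k x k' = D + S.card := by
  classical
  have h1 := hHN w D H hreg c q (sz B w v k') hc hq
  rw [← h1, ← Finset.card_union_of_disjoint]
  · refine cnt_card _ (fun y => ?_)
    rw [h y, Finset.mem_union, Finset.mem_filter, Finset.mem_range]
  · refine Finset.disjoint_left.mpr (fun y hy hyS => hS y hyS (Finset.mem_filter.mp hy).2.1)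

theorem cyc_count (n z e : ℕ) (_hn : 0 < n) :
    ((Finset.range n).filter (fun y => e ≤ (z + y) % n)).card = n - e := by
  have h1 : ((Finset.range n).filter (fun y => e ≤ (z + y) % n)).card =
      ((Finset.Ico z (z + n)).filter (fun u => e ≤ u % n)).card := by
    refine Finset.card_bij (fun y _ => z + y) ?_ ?_ ?_
    · intro y hy
      simp only [Finset.mem_filter, Finset.mem_range] at hy
      simp only [Finset.mem_filter, Finset.mem_Ico]
      omega
    · intro a _ b _ hab
      omega
    · intro u hu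
      simp only [Finset.mem_filter, Finset.mem_Ico] at hu
      refine ⟨u - z, ?_, by omega⟩
      have hz : z + (u - z) = u := by omega
      simp only [Finset.mem_filter, Finset.mem_range, hz]
      omega
  rw [h1, Nat.filter_Ico_card_eq_of_periodic z n (fun u => e ≤ u % n)
    (by intro u; simp), Nat.count_eq_card_filter_range]
  have h2 : (Finset.range n).filter (fun u => e ≤ u % n) = Finset.Ico e n := by
    ext u
    simp only [Finset.mem_filter, Finset.mem_range, Finset.mem_Ico]
    constructor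
    · rintro ⟨h3, h4⟩
      rw [Nat.mod_eq_of_lt h3] at h4
      exact ⟨h4, h3⟩
    · rintro ⟨h3, h4⟩
      rw [Nat.mod_eq_of_lt h4]
      exact ⟨h4, h3⟩
  rw [h2, Nat.card_Ico]

theorem t_DR1 : S_HN → S_DR1 := by
  intro hHN p B w v m D H hP z hz
  have hw := hP.hw
  have hv := hP.hv
  have hm := hP.hm
  have hreg := hP.hreg
  -- arithmetic facts
  obtain ⟨a, ha⟩ : ∃ a, a = z / w := ⟨_, rfl⟩
  have ha1 : a * w ≤ z := by rw [ha]; exact Nat.div_mul_le_self z w
  have ha2 : z < a * w + w := by
    have := Nat.lt_div_mul_add (a := z) hw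
    rw [ha]; exact this
  have haN : a < 2 * B := by
    rw [ha, Nat.div_lt_iff_lt_mul hw]
    exact hz
  have haN' : a * w + w ≤ 2 * B * w := by
    have := Nat.mul_le_mul_right w (Nat.succ_le_of_lt haN)
    rw [Nat.succ_mul] at this
    exact this
  have hNZ : 2 * B * w = 2 * (B * w) := by ring
  have hc : z % w < w := Nat.mod_lt _ hw
  have hvw : 2 * w ≤ w * v := by
    have : w * 2 ≤ w * v := Nat.mul_le_mul_left w (by omega)
    omega
  have hge : ∀ (c y : ℕ), c ≤ y / w ↔ c * w ≤ y := fun c y => Nat.le_div_iff_mul_le hw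
  have hlt : ∀ (c y : ℕ), y / w < c ↔ y < c * w := fun c y => Nat.div_lt_iff_lt_mul hw
  -- the counts
  have c1 : cnt B w v H (.r 1 : Kd p) z (.r 1) = 0 := cnt_zero (fun y => by simp [A2, E])
  have cu0 : cnt B w v H (.r 1 : Kd p) z .u0 = 0 := cnt_zero (fun y => by simp [A2, E])
  have cu2 : cnt B w v H (.r 1 : Kd p) z .u2 = 0 := cnt_zero (fun y => by simp [A2, E])
  have cl1 : cnt B w v H (.r 1 : Kd p) z .l1 = 0 := cnt_zero (fun y => by simp [A2, E])
  have cl2 : cnt B w v H (.r 1 : Kd p) z .l2 = 0 := cnt_zero (fun y => by simp [A2, E])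
  have ca : ∀ i : Fin p, cnt B w v H (.r 1 : Kd p) z (.a i) = D := by
    intro i
    have := cnt_add hHN (B := B) (v := v) hreg (k := (.r 1 : Kd p)) (k' := .a i) (x := z) (z % w) a ∅
      hc (by simp only [sz]; rw [Nat.succ_mul]; omega)
      (fun y => by simp [A2, E, ha]) (by simp)
    simpa using this
  have cb : ∀ i : Fin p, cnt B w v H (.r 1 : Kd p) z (.b i) = D := by
    intro i
    have := cnt_add hHN (B := B) (v := v) hreg (k := (.r 1 : Kd p)) (k' := .b i) (x := z) (z % w)
      (a + 1) ∅ hc (by simp only [sz]; rw [Nat.succ_mul, Nat.succ_mul]; omega)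
      (fun y => by simp [A2, E, ha]) (by simp)
    simpa using this
  have A12 : ∀ y, A2 B w v H (.r 1 : Kd p) z (.r 2) y ↔
      (z / w < y / w ∧ B * w ≤ y ∧ (B * w ≤ z ∨ 2 * B * w - 1 ≤ z + y)) ∨
      (z / w = y / w ∧ Hn H (z % w) (y % w)) := by
    intro y
    have e1 : ((2 : Fin 3) = 1 + 1) := by decide
    have e2 : ¬ ((1 : Fin 3) = 2 + 1) := by decide
    have e3 : (1 : Fin 3) ≠ 2 := by decide
    have e4 : ¬ ((1 : Fin 3) = 0) := by decide
    simp only [A2, E, th, if_neg e4, e2, false_and, false_or]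
    rw [Hn_comm H (y % w) (z % w), eq_comm (a := y / w)]
    constructor
    · rintro ((⟨_, h⟩ | ⟨_, h⟩) | ⟨_, h⟩)
      · exact Or.inl h
      · exact Or.inr h
      · exact Or.inr h
    · rintro (h | h)
      · exact Or.inl (Or.inl ⟨e1, h⟩)
      · exact Or.inl (Or.inr ⟨e3, h⟩)
  have A10 : ∀ y, A2 B w v H (.r 1 : Kd p) z (.r 0) y ↔
      (y / w < z / w ∧ B * w ≤ z ∧ (B * w ≤ y ∨ 2 * B * w + w - 1 ≤ y + z)) ∨
      (z / w = y / w ∧ Hn H (z % w) (y % w)) := by
    intro y
    have e1 : ((1 : Fin 3) = 0 + 1) := by decide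
    have e2 : ¬ ((0 : Fin 3) = 1 + 1) := by decide
    have e3 : (1 : Fin 3) ≠ 0 := by decide
    simp only [A2, E, th, e2, false_and, false_or, if_true]
    rw [Hn_comm H (y % w) (z % w), eq_comm (a := y / w)]
    constructor
    · rintro (⟨_, h⟩ | (⟨_, h⟩ | ⟨_, h⟩))
      · exact Or.inr h
      · exact Or.inl h
      · exact Or.inr h
    · rintro (h | h)
      · exact Or.inr (Or.inl ⟨e1, h⟩)
      · exact Or.inl ⟨e3, h⟩
  have AU1 : ∀ y, A2 B w v H (.r 1 : Kd p) z .u1 y ↔
      ((z < B * w → 2 * w ≤ (z + y) % (w * v)) ∧ (B * w ≤ z → B * w + w ≤ y + z + 1)) := by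
    intro y
    simp [A2, E]
  have hsum : dg B w v H (.r 1 : Kd p) z = cnt B w v H (.r 1 : Kd p) z (.r 0) +
      cnt B w v H (.r 1 : Kd p) z (.r 2) + cnt B w v H (.r 1 : Kd p) z .u1 + p * D + p * D := by
    simp only [dg, c1, cu0, cu2, cl1, cl2, ca, cb, Finset.sum_const, Finset.card_univ,
      Fintype.card_fin, smul_eq_mul]
    ring
  have hpD : (2 * p + 2) * D = 2 * (p * D) + 2 * D := by ring
  rw [hsum, hpD]
  by_cases hzZ : z < B * w
  · -- lower half
    have haB : a < B := by rw [ha, Nat.div_lt_iff_lt_mul hw]; exact hzZ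
    have haB' : a * w + w ≤ B * w := by
      have := Nat.mul_le_mul_right w (Nat.succ_le_of_lt haB)
      rw [Nat.succ_mul] at this
      exact this
    have cr2 : cnt B w v H (.r 1 : Kd p) z (.r 2) = D + (z + 1) := by
      have := cnt_add hHN (B := B) (v := v) hreg (k := (.r 1 : Kd p)) (k' := .r 2) (x := z) (z % w) a
        (Finset.Ico (2 * B * w - 1 - z) (2 * B * w)) hc
        (by simp only [sz]; rw [Nat.succ_mul]; omega)
        (fun y => by
          rw [A12, Finset.mem_Ico, ← ha]
          simp only [sz]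
          constructor
          · rintro ⟨h1, ⟨h2, h3, h4⟩ | ⟨h2, h3⟩⟩
            · right
              omega
            · exact Or.inl ⟨h1, h2, h3⟩
          · rintro (⟨h1, h2, h3⟩ | ⟨h1, h2⟩)
            · exact ⟨h1, Or.inr ⟨h2, h3⟩⟩
            · refine ⟨h2, Or.inl ⟨?_, by omega, Or.inr (by omega)⟩⟩
              have : a + 1 ≤ y / w := by rw [hge, Nat.succ_mul]; omega
              omega)
        (fun y hy => by
          rw [Finset.mem_Ico] at hy
          have : a + 1 ≤ y / w := by rw [hge, Nat.succ_mul]; omega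
          omega)
      rw [this, Nat.card_Ico]
      omega
    have cr0 : cnt B w v H (.r 1 : Kd p) z (.r 0) = D := by
      have := cnt_add hHN (B := B) (v := v) hreg (k := (.r 1 : Kd p)) (k' := .r 0) (x := z) (z % w) a
        ∅ hc (by simp only [sz]; rw [Nat.succ_mul]; omega)
        (fun y => by
          rw [A10, ← ha]
          simp only [sz, Finset.notMem_empty, or_false]
          constructor
          · rintro ⟨h1, ⟨h2, h3, h4⟩ | ⟨h2, h3⟩⟩
            · omega
            · exact ⟨h1, h2, h3⟩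
          · rintro ⟨h1, h2, h3⟩
            exact ⟨h1, Or.inr ⟨h2, h3⟩⟩)
        (by simp)
      simpa using this
    have cu1 : cnt B w v H (.r 1 : Kd p) z .u1 = w * v - 2 * w := by
      rw [← cyc_count (w * v) z (2 * w) (by omega)]
      refine cnt_card _ (fun y => ?_)
      rw [AU1, Finset.mem_filter, Finset.mem_range]
      simp only [sz]
      constructor
      · rintro ⟨h1, h2, _⟩
        exact ⟨h1, h2 hzZ⟩
      · rintro ⟨h1, h2⟩
        exact ⟨h1, fun _ => h2, fun h => by omega⟩
    rw [cr2, cr0, cu1]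
    omega
  · -- upper half
    push Not at hzZ
    have haB : B ≤ a := by rw [ha, Nat.le_div_iff_mul_le hw]; exact hzZ
    have haB' : B * w ≤ a * w := Nat.mul_le_mul_right w haB
    have cr2 : cnt B w v H (.r 1 : Kd p) z (.r 2) = D + (2 * B * w - (a * w + w)) := by
      have := cnt_add hHN (B := B) (v := v) hreg (k := (.r 1 : Kd p)) (k' := .r 2) (x := z) (z % w) a
        (Finset.Ico (a * w + w) (2 * B * w)) hc
        (by simp only [sz]; rw [Nat.succ_mul]; omega)
        (fun y => by
          have hy : a < y / w ↔ a * w + w ≤ y := by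
            rw [← Nat.succ_le_iff, hge, Nat.succ_mul]
          rw [A12, Finset.mem_Ico, ← ha, hy]
          simp only [sz]
          constructor
          · rintro ⟨h1, ⟨h2, h3, h4⟩ | ⟨h2, h3⟩⟩
            · right
              omega
            · exact Or.inl ⟨h1, h2, h3⟩
          · rintro (⟨h1, h2, h3⟩ | ⟨h1, h2⟩)
            · exact ⟨h1, Or.inr ⟨h2, h3⟩⟩
            · exact ⟨h2, Or.inl ⟨h1, by omega, Or.inl hzZ⟩⟩)
        (fun y hy => by
          rw [Finset.mem_Ico] at hy
          have : a + 1 ≤ y / w := by rw [hge, Nat.succ_mul]; omega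
          omega)
      rw [this, Nat.card_Ico]
    have cr0 : cnt B w v H (.r 1 : Kd p) z (.r 0) =
        D + ((a * w - B * w) + (z + 1 - B * w - w)) := by
      have := cnt_add hHN (B := B) (v := v) hreg (k := (.r 1 : Kd p)) (k' := .r 0) (x := z) (z % w) a
        (Finset.Ico (B * w) (a * w) ∪ Finset.Ico (2 * B * w + w - 1 - z) (B * w)) hc
        (by simp only [sz]; rw [Nat.succ_mul]; omega)
        (fun y => by
          have hy : y / w < a ↔ y < a * w := hlt a y
          rw [A10, Finset.mem_union, Finset.mem_Ico, Finset.mem_Ico, ← ha, hy]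
          simp only [sz]
          constructor
          · rintro ⟨h1, ⟨h2, h3, h4⟩ | ⟨h2, h3⟩⟩
            · right
              omega
            · exact Or.inl ⟨h1, h2, h3⟩
          · rintro (⟨h1, h2, h3⟩ | (⟨h1, h2⟩ | ⟨h1, h2⟩))
            · exact ⟨h1, Or.inr ⟨h2, h3⟩⟩
            · exact ⟨by omega, Or.inl ⟨h2, hzZ, Or.inl h1⟩⟩
            · exact ⟨by omega, Or.inl ⟨by omega, hzZ, Or.inr (by omega)⟩⟩)
        (fun y hy => by
          rw [Finset.mem_union, Finset.mem_Ico, Finset.mem_Ico] at hy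
          have : y / w < a := by rw [hlt]; omega
          omega)
      rw [this, Finset.card_union_of_disjoint, Nat.card_Ico, Nat.card_Ico]
      · omega
      · rw [Finset.disjoint_left]
        intro y hy hy'
        rw [Finset.mem_Ico] at hy hy'
        omega
    have cu1 : cnt B w v H (.r 1 : Kd p) z .u1 = w * v - (B * w + w - 1 - z) := by
      have := cnt_card (B := B) (v := v) (H := H) (k := (.r 1 : Kd p)) (k' := .u1) (x := z)
        (Finset.Ico (B * w + w - 1 - z) (w * v)) (fun y => by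
          rw [AU1, Finset.mem_Ico]
          simp only [sz]
          constructor
          · rintro ⟨h1, _, h2⟩
            have := h2 hzZ
            omega
          · rintro ⟨h1, h2⟩
            exact ⟨h2, fun h => by omega, fun _ => by omega⟩)
      rw [this, Nat.card_Ico]
    rw [cr2, cr0, cu1]
    omega

end Run7.h459.RO
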